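import Pool.Agent.Helper86.TK.Defs

open Set Filter Topology

namespace Pool.Agent.Helper86.TK

noncomputable section

/-- the vector of the integer parts of `2 ^ m c` at the first `m` points -/
def pat_v (tt : ℕ → T) (m : ℕ) (c : T → ℝ) : Fin m → ℤ := fun i => ⌊(2 : ℝ) ^ m * c (tt i)⌋

theorem pat_fin (tt : ℕ → T) (m : ℕ) (C : Set (T → ℝ)) (hC : ∀ c ∈ C, ∀ t, |c t| ≤ 3) :
    (pat_v tt m '' C).Finite := by
  have h1 : {v : Fin m → ℤ | ∀ i, v i ∈ Set.Icc (-(3 * 2 ^ m) : ℤ) (3 * 2 ^ m)}.Finite :=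
    Set.Finite.pi' fun i => Set.finite_Icc _ _
  refine h1.subset ?_
  rintro _ ⟨c, hc, rfl⟩ i
  have h2 := abs_le.1 (hC c hc (tt i))
  have h3 : (0 : ℝ) < 2 ^ m := by positivity
  constructor
  · show -(3 * 2 ^ m : ℤ) ≤ ⌊(2 : ℝ) ^ m * c (tt i)⌋
    rw [Int.le_floor]
    push_cast
    nlinarith [h2.1]
  · show ⌊(2 : ℝ) ^ m * c (tt i)⌋ ≤ 3 * 2 ^ m
    have h4 : ((⌊(2 : ℝ) ^ m * c (tt i)⌋ : ℤ) : ℝ) ≤ ((3 * 2 ^ m : ℤ) : ℝ) := by
      refine (Int.floor_le _).trans ?_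
      push_cast
      nlinarith [h2.2]
    exact_mod_cast h4

theorem pat_seq {J : Type} (A : ℕ → Set J) (hA : ∀ n, (A n).Infinite) :
    ∃ s : ℕ → J, Function.Injective s ∧ ∀ n, s n ∈ A n := by
  classical
  choose pick hpick using fun (n : ℕ) (F : Finset J) => (hA n).exists_notMem_finset F
  let G : ℕ → Finset J := fun n => Nat.rec ∅ (fun n F => insert (pick n F) F) n
  have hG : ∀ n, G (n + 1) = insert (pick n (G n)) (G n) := fun n => rfl
  have hmono : Monotone G := monotone_nat_of_le_succ fun n => by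
    rw [hG]
    exact Finset.subset_insert _ _
  have hlt : ∀ m n, m < n → pick m (G m) ≠ pick n (G n) := by
    intro m n hmn h
    have h1 : pick m (G m) ∈ G (m + 1) := by
      rw [hG]
      exact Finset.mem_insert_self _ _
    have h2 := hmono (Nat.succ_le_of_lt hmn) h1
    rw [h] at h2
    exact (hpick n (G n)).2 h2
  refine ⟨fun n => pick n (G n), ?_, fun n => (hpick n (G n)).1⟩
  intro m n hmn
  rcases lt_trichotomy m n with h | h | h
  · exact absurd hmn (hlt m n h)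
  · exact h
  · exact absurd hmn.symm (hlt n m h)

theorem pat_compact (tt : ℕ → T) (htt : Function.Surjective tt) (C₀ : Set (T → ℝ))
    (D : ℕ → Set (T → ℝ)) (h0 : IsCompact C₀) (hD : ∀ n, IsCompact (D n))
    (h3 : ∀ n, ∀ c ∈ D n, ∀ t, |c t| ≤ 3)
    (hP : ∀ n, pat_v tt n '' D n ⊆ pat_v tt n '' C₀) : IsCompact (C₀ ∪ ⋃ n, D n) := by
  rw [isCompact_iff_ultrafilter_le_nhds]
  intro f hf
  rw [le_principal_iff] at hf
  by_cases hc0 : C₀ ∈ f
  · obtain ⟨x, hx, hfx⟩ := isCompact_iff_ultrafilter_le_nhds.1 h0 f (le_principal_iff.2 hc0)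
    exact ⟨x, Or.inl hx, hfx⟩
  by_cases hcn : ∃ n, D n ∈ f
  · obtain ⟨n, hn⟩ := hcn
    obtain ⟨x, hx, hfx⟩ := isCompact_iff_ultrafilter_le_nhds.1 (hD n) f (le_principal_iff.2 hn)
    exact ⟨x, Or.inr (mem_iUnion.2 ⟨n, hx⟩), hfx⟩
  push Not at hcn
  have hU : (⋃ n, D n) ∈ f := (Ultrafilter.union_mem_iff.1 hf).resolve_left hc0
  have htail : ∀ m, (⋃ n, ⋃ _ : m ≤ n, D n) ∈ f := by
    intro m
    have h1 : (⋂ n ∈ Finset.range m, (D n)ᶜ) ∈ f := by
      have h2 : (⋂ n ∈ Finset.range m, (D n)ᶜ) ∈ (f : Filter (T → ℝ)) := by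
        rw [Filter.biInter_finset_mem]
        intro n _
        exact Ultrafilter.compl_mem_iff_notMem.2 (hcn n)
      exact h2
    filter_upwards [h1, hU] with x hx1 hx2
    obtain ⟨n, hn⟩ := mem_iUnion.1 hx2
    refine mem_iUnion.2 ⟨n, mem_iUnion.2 ⟨?_, hn⟩⟩
    by_contra hlt
    have h3 := mem_iInter.1 (mem_iInter.1 hx1 n) (Finset.mem_range.2 (not_le.1 hlt))
    exact h3 hn
  -- the limit
  have hbox : IsCompact (Set.pi univ fun _ : T => Set.Icc (-3 : ℝ) 3) :=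
    isCompact_univ_pi fun _ => isCompact_Icc
  have hfb : (Set.pi univ fun _ : T => Set.Icc (-3 : ℝ) 3) ∈ f := by
    filter_upwards [hU] with x hx
    obtain ⟨n, hn⟩ := mem_iUnion.1 hx
    intro t _
    exact abs_le.1 (h3 n x hn t)
  obtain ⟨c, _, hfc⟩ := isCompact_iff_ultrafilter_le_nhds.1 hbox f (le_principal_iff.2 hfb)
  refine ⟨c, Or.inl ?_, hfc⟩
  have hcl : IsClosed C₀ := h0.isClosed
  rw [← hcl.closure_eq, mem_closure_iff_nhds]
  intro V hV
  rw [nhds_pi, Filter.mem_pi] at hV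
  obtain ⟨I, hI, W, hW, hIV⟩ := hV
  -- one radius and one index for all coordinates in `I`
  have hε : ∃ ε > 0, ∀ t ∈ I, Metric.ball (c t) ε ⊆ W t := by
    choose e he1 he2 using fun t => Metric.mem_nhds_iff.1 (hW t)
    rcases I.eq_empty_or_nonempty with h | h
    · exact ⟨1, one_pos, fun t ht => by rw [h] at ht; exact absurd ht (notMem_empty t)⟩
    · obtain ⟨t₀, _, ht₀⟩ := hI.exists_minimalFor e I h
      refine ⟨e t₀, he1 t₀, fun t ht => ?_⟩
      refine subset_trans (Metric.ball_subset_ball ?_) (he2 t)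
      rcases le_total (e t₀) (e t) with h1 | h1
      · exact h1
      · exact ht₀ ht h1
  obtain ⟨ε, hε0, hε⟩ := hε
  choose ix hix using htt
  obtain ⟨N₁, hN₁⟩ := (hI.image ix).bddAbove
  obtain ⟨N₂, hN₂⟩ := exists_pow_lt_of_lt_one (half_pos hε0) (by norm_num : (1 / 2 : ℝ) < 1)
  -- the neighbourhood of `c`
  have hnb : (I.pi fun t => Metric.ball (c t) (ε / 2)) ∈ 𝓝 c := by
    rw [nhds_pi, Filter.mem_pi]
    exact ⟨I, hI, _, fun t => Metric.ball_mem_nhds _ (half_pos hε0), subset_rfl⟩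
  obtain ⟨x, hx1, hx2⟩ := (f.neBot.nonempty_of_mem
    (inter_mem (hfc hnb) (htail (max (N₁ + 1) N₂))))
  obtain ⟨n, hn⟩ := mem_iUnion.1 hx2
  obtain ⟨hn1, hn2⟩ := mem_iUnion.1 hn
  obtain ⟨y, hy, hxy⟩ := hP n ⟨x, hn2, rfl⟩
  refine ⟨y, hIV ?_, hy⟩
  intro t ht
  apply hε t ht
  have h4 : ix t ≤ N₁ := hN₁ ⟨t, ht, rfl⟩
  have h5 : ix t < n := by
    have := (le_max_left (N₁ + 1) N₂).trans hn1
    omega
  have h6 : ⌊(2 : ℝ) ^ n * y t⌋ = ⌊(2 : ℝ) ^ n * x t⌋ := by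
    have h7 := congrFun hxy ⟨ix t, h5⟩
    have h8 : ⌊(2 : ℝ) ^ n * y (tt (ix t))⌋ = ⌊(2 : ℝ) ^ n * x (tt (ix t))⌋ := h7
    rwa [hix] at h8
  have h9 := Int.abs_sub_lt_one_of_floor_eq_floor h6
  have h10 : (0 : ℝ) < 2 ^ n := by positivity
  rw [← mul_sub, abs_mul, abs_of_pos h10] at h9
  have h11 : |y t - x t| < ε / 2 := by
    have h12 : |y t - x t| < (1 / 2) ^ n := by
      rw [one_div_pow, lt_div_iff₀ h10, mul_comm]
      exact h9
    refine h12.trans_le (le_trans ?_ hN₂.le)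
    exact pow_le_pow_of_le_one (by norm_num) (by norm_num) ((le_max_right _ _).trans hn1)
  have h13 : dist (x t) (c t) < ε / 2 := hx1 t ht
  rw [Metric.mem_ball]
  calc dist (y t) (c t) ≤ dist (y t) (x t) + dist (x t) (c t) := dist_triangle _ _ _
    _ < ε / 2 + ε / 2 := add_lt_add (by rw [Real.dist_eq]; exact h11) h13
    _ = ε := add_halves ε

theorem st_PAT : ST_PAT := by
  classical
  intro J C hJ hC h3
  obtain ⟨tt, htt⟩ := exists_surjective_nat T
  let P : ∀ m, J → Finset (Fin m → ℤ) := fun m j => (pat_fin tt m (C j) (h3 j)).toFinset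
  have hP : ∀ m j, (P m j : Set (Fin m → ℤ)) = pat_v tt m '' C j := fun m j =>
    (pat_fin tt m (C j) (h3 j)).coe_toFinset
  have hgood : ∃ j, ∀ m, {j' | P m j' = P m j}.Infinite := by
    by_contra hcon
    push Not at hcon
    apply hJ
    rw [← Set.countable_univ_iff]
    have hsub : (univ : Set J) ⊆ ⋃ m : ℕ, ⋃ v ∈ {v : Finset (Fin m → ℤ) |
        (P m ⁻¹' {v}).Finite}, P m ⁻¹' {v} := by
      intro j _
      obtain ⟨m, hm⟩ := hcon j
      refine mem_iUnion.2 ⟨m, mem_iUnion₂.2 ⟨P m j, ?_, rfl⟩⟩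
      exact hm
    refine Set.Countable.mono hsub (Set.countable_iUnion fun m => ?_)
    exact (Set.to_countable _).biUnion fun v hv => Set.Finite.countable hv
  obtain ⟨j, hj⟩ := hgood
  obtain ⟨s, hs, hs2⟩ := pat_seq (fun n => {j' | P n j' = P n j}) hj
  refine ⟨s, j, hs, ?_⟩
  apply pat_compact tt htt (C j) (fun n => C (s n)) (hC j) (fun n => hC _) (fun n => h3 _)
  intro n
  have h1 : P n (s n) = P n j := hs2 n
  rw [← hP, ← hP, h1]

end

end Pool.Agent.Helper86.TK
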